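import Pool.Agent.ABCP.Stmts

/-!
# LO1: the case of dimension one
-/

set_option autoImplicit false

namespace Pool.Agent.ABCP.H6

open Matrix Pool.Agent.ABCP
open Pool.Agent.ABC3 (St sdeg xc mu mu_def xc_comm xc_sq mu_comm mu_deg HasDeg HomV kr)

theorem homV_neg {K ι : Type} [Field K] [Fintype ι] [DecidableEq ι] (d : ℤ) (hd : d < 0)
    (v : St ι → K) (hv : HomV sdeg d v) : v = 0 := by
  funext s
  by_contra h
  have h1 := hv s h
  have h2 : (0 : ℤ) ≤ sdeg s := by
    unfold sdeg
    exact Int.natCast_nonneg _
  omega

/-- LO1 -/
theorem lo1 (hrk : RK1Stmt) (hann : ANNStmt) : LO1Stmt := by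
  intro p hp K Q _ _ _ _ _ ι _ _ ev hev hfr e he
  have hp2 : 2 ≤ p := hp.out.two_le
  have hthr : thr p (Fintype.card ι) (Module.finrank K Q) = (Fintype.card ι : ℤ) - p + 2 := by
    rw [hfr]
    unfold thr
    push_cast
    ring
  obtain ⟨q, hq0, hq⟩ := finrank_eq_one_iff'.mp hfr
  have hw : ∀ c, ev c q ≠ 0 := by
    intro c h0
    apply hev c
    apply LinearMap.ext
    intro x
    obtain ⟨a, rfl⟩ := hq x
    rw [map_smul, h0, smul_zero, LinearMap.zero_apply]
  have key : ∀ m : ℕ, ∀ d : ℤ, d < m → 2 * d < thr p (Fintype.card ι) (Module.finrank K Q) →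
      ∀ v, HomV (TSys p ev).deg d v → e.mulVec v = v → v = 0 := by
    intro m
    induction m with
    | zero =>
      intro d hd _ v hv _
      exact homV_neg d (by simpa using hd) v hv
    | succ m ih =>
      intro d hd ht v hv hev'
      rcases lt_or_ge d 0 with hd0 | hd0
      · exact homV_neg d hd0 v hv
      · have hne : Nonempty ι := by
          by_contra hn
          have hemp : IsEmpty ι := not_nonempty_iff.mp hn
          rw [hthr, Fintype.card_eq_zero] at ht
          push_cast at ht
          omega
        have h1 : AnnP (TSys p ev) ⊤ v := hann p K Q (St ι) (TSys p ev) ι ev hev (by omega) e he d v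
          hv hev'
        have h2 := h1 (List.replicate (p - 1) q) (fun x _ => Submodule.mem_top)
          (by rw [List.length_replicate, finrank_top, hfr, mul_one])
        rw [List.map_replicate, List.prod_replicate] at h2
        have h3 : (mu (fun c => ev c q) ^ (p - 1)).mulVec v = 0 := h2
        obtain ⟨x, hx1, hx2⟩ := hrk p K ι (fun c => ev c q) hw (p - 1) (by omega) d v hv h3
          (by rw [hthr] at ht; omega)
        have h4 : p - (p - 1) = 1 := by omega
        rw [h4, pow_one] at hx2
        have hd1 : d - (p : ℤ) + ((p - 1 : ℕ) : ℤ) = d - 1 := by omega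
        rw [hd1] at hx1
        have he1 : e * e = e := he.1
        have he2 : End0 (TSys p ev) e := he.2.1
        have h5 : mu (fun c => ev c q) * e = e * mu (fun c => ev c q) :=
          he2.2 q Submodule.mem_top
        have h6 : v = (mu (fun c => ev c q)).mulVec (e.mulVec x) := by
          rw [Matrix.mulVec_mulVec, h5, ← Matrix.mulVec_mulVec, ← hx2, hev']
        have h7 : e.mulVec x = 0 := by
          refine ih (d - 1) (by push_cast at hd; omega) (by omega) _ ?_ ?_
          · intro s hs
            have h8 : ∃ s', e s s' * x s' ≠ 0 := by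
              by_contra hcon
              push Not at hcon
              apply hs
              show ∑ s', e s s' * x s' = 0
              exact Finset.sum_eq_zero fun s' _ => hcon s'
            obtain ⟨s', hs'⟩ := h8
            have h9 := he2.1 s s' (left_ne_zero_of_mul hs')
            have h10 := hx1 s' (right_ne_zero_of_mul hs')
            have h11 : (TSys p ev).deg s' = d - 1 := h10
            rw [h9, h11]
            ring
          · rw [Matrix.mulVec_mulVec, he1]
        rw [h6, h7, Matrix.mulVec_zero]
  intro d hd v hv hev'
  exact key (d.toNat + 1) d (by omega) hd v hv hev'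

end Pool.Agent.ABCP.H6
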